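import Mathlib

open Set Metric
open scoped RealInnerProductSpace

namespace Pool.Agent.Results.MP_3d3a24_gt.LooksSymmetric

section general

variable {V : Type*} [NormedAddCommGroup V] [InnerProductSpace ℝ V]

/-- denominator of the harmonic homology with centre `c`. -/
noncomputable def den (c x : V) : ℝ := 1 - 2 * ⟪x, c⟫ + ‖c‖ ^ 2

/-- The harmonic homology with centre `c` and axis `{y | ⟪y, c⟫ = 1}` (it preserves the unit ball). -/
noncomputable def hom (c x : V) : V := (den c x)⁻¹ • ((2 * (1 - ⟪x, c⟫)) • c - (1 - ‖c‖ ^ 2) • x)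

lemma inner_le_of_norm_le {c x : V} (hx : ‖x‖ ≤ 1) : ⟪x, c⟫ ≤ ‖c‖ := by
  have h := real_inner_le_norm x c
  nlinarith [norm_nonneg c]

lemma den_pos {c x : V} (hc : ‖c‖ < 1) (hx : ‖x‖ ≤ 1) : 0 < den c x := by
  have h := inner_le_of_norm_le (c := c) hx
  unfold den
  nlinarith [norm_nonneg c, sq_nonneg (1 - ‖c‖), mul_pos (sub_pos.2 hc) (sub_pos.2 hc)]

omit [InnerProductSpace ℝ V] in
lemma one_sub_sq_pos {c : V} (hc : ‖c‖ < 1) : 0 < 1 - ‖c‖ ^ 2 := by
  nlinarith [norm_nonneg c]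

lemma tau_pos {c x : V} (hc : ‖c‖ < 1) (hx : ‖x‖ ≤ 1) : 0 < 1 - ⟪x, c⟫ := by
  have h := inner_le_of_norm_le (c := c) hx
  linarith

lemma inner_hom {c x : V} : ⟪hom c x, c⟫ =
    (2 * (1 - ⟪x, c⟫) * ‖c‖ ^ 2 - (1 - ‖c‖ ^ 2) * ⟪x, c⟫) / den c x := by
  unfold hom
  rw [real_inner_smul_left, inner_sub_left, real_inner_smul_left, real_inner_smul_left,
    real_inner_self_eq_norm_sq]
  rw [div_eq_inv_mul]

lemma tau_hom {c x : V} (h : den c x ≠ 0) : 1 - ⟪hom c x, c⟫ = (1 - ‖c‖ ^ 2) * (1 - ⟪x, c⟫) / den c x := by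
  rw [inner_hom]
  field_simp
  unfold den
  ring

lemma den_hom {c x : V} (h : den c x ≠ 0) : den c (hom c x) = (1 - ‖c‖ ^ 2) ^ 2 / den c x := by
  have h1 := tau_hom h
  have h2 : den c (hom c x) = 2 * (1 - ⟪hom c x, c⟫) - (1 - ‖c‖ ^ 2) := by
    unfold den; ring
  rw [h2, h1]
  field_simp
  unfold den
  ring

lemma hom_hom {c x : V} (hc : ‖c‖ < 1) (hx : ‖x‖ ≤ 1) : hom c (hom c x) = x := by
  have hd := (den_pos hc hx).ne'
  have hk := (one_sub_sq_pos hc).ne'
  have h1 := den_hom hd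
  have h2 := tau_hom hd
  have h3 : hom c (hom c x) = (den c (hom c x))⁻¹ • ((2 * (1 - ⟪hom c x, c⟫)) • c
    - (1 - ‖c‖ ^ 2) • hom c x) := rfl
  rw [h3, h1, h2]
  unfold hom
  rw [smul_sub, smul_sub, smul_sub, smul_sub]
  simp only [smul_smul]
  rw [← sub_add, ← sub_smul]
  have e1 : ((1 - ‖c‖ ^ 2) ^ 2 / den c x)⁻¹ * (2 * ((1 - ‖c‖ ^ 2) * (1 - ⟪x, c⟫) / den c x)) -
      ((1 - ‖c‖ ^ 2) ^ 2 / den c x)⁻¹ * ((1 - ‖c‖ ^ 2) * ((den c x)⁻¹ * (2 * (1 - ⟪x, c⟫)))) = 0 := by
    field_simp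
    ring
  have e2 : ((1 - ‖c‖ ^ 2) ^ 2 / den c x)⁻¹ * ((1 - ‖c‖ ^ 2) * ((den c x)⁻¹ * (1 - ‖c‖ ^ 2))) = 1 := by
    field_simp
  rw [e1, e2, zero_smul, zero_add, one_smul]

lemma norm_sq_hom {c x : V} (h : den c x ≠ 0) :
    ‖hom c x‖ ^ 2 = 1 - (1 - ‖c‖ ^ 2) ^ 2 * (1 - ‖x‖ ^ 2) / den c x ^ 2 := by
  unfold hom
  rw [norm_smul, mul_pow, Real.norm_eq_abs, sq_abs, norm_sub_sq_real, norm_smul, norm_smul,
    real_inner_smul_left, real_inner_smul_right, mul_pow, mul_pow, Real.norm_eq_abs, Real.norm_eq_abs,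
    sq_abs, sq_abs, real_inner_comm x c]
  field_simp
  unfold den
  ring

lemma norm_hom_le {c x : V} (hc : ‖c‖ < 1) (hx : ‖x‖ ≤ 1) : ‖hom c x‖ ≤ 1 := by
  have hd := den_pos hc hx
  have h := norm_sq_hom hd.ne'
  have h1 : 0 ≤ (1 - ‖c‖ ^ 2) ^ 2 * (1 - ‖x‖ ^ 2) / den c x ^ 2 := by
    apply div_nonneg
    · apply mul_nonneg (sq_nonneg _)
      nlinarith [norm_nonneg x]
    · positivity
  have h2 : ‖hom c x‖ ^ 2 ≤ 1 := by linarith
  nlinarith [norm_nonneg (hom c x)]

lemma cap_hom {c x : V} (hc : ‖c‖ < 1) (hx : ‖x‖ ≤ 1) (h : ⟪x, c⟫ ≤ ‖c‖ ^ 2) :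
    ‖c‖ ^ 2 ≤ ⟪hom c x, c⟫ := by
  have hd := den_pos hc hx
  rw [inner_hom, le_div_iff₀ hd]
  unfold den
  nlinarith [one_sub_sq_pos hc]

lemma continuousOn_hom {c : V} (hc : ‖c‖ < 1) : ContinuousOn (hom c) (closedBall (0 : V) 1) := by
  have hden : Continuous (fun x : V => den c x) := by
    unfold den
    fun_prop
  unfold hom
  apply ContinuousOn.smul
  · apply ContinuousOn.inv₀ hden.continuousOn
    intro x hx
    rw [mem_closedBall_zero_iff] at hx
    exact (den_pos hc hx).ne'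
  · apply Continuous.continuousOn
    fun_prop

/-- A homology maps the convex hull of an invariant subset of the unit ball to itself. -/
lemma hom_convexHull {c : V} (hc : ‖c‖ < 1) {D : Set V} (hD : D ⊆ closedBall 0 1)
    (hinv : ∀ x ∈ D, hom c x ∈ D) : ∀ x ∈ convexHull ℝ D, hom c x ∈ convexHull ℝ D := by
  have hT : Convex ℝ {x : V | ‖x‖ ≤ 1 ∧ hom c x ∈ convexHull ℝ D} := by
    intro x hx y hy s t hs ht hst
    obtain ⟨hx1, hx2⟩ := hx
    obtain ⟨hy1, hy2⟩ := hy
    have hxy : ‖s • x + t • y‖ ≤ 1 := by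
      have := (convex_closedBall (0 : V) 1) (mem_closedBall_zero_iff.2 hx1) (mem_closedBall_zero_iff.2 hy1)
        hs ht hst
      exact mem_closedBall_zero_iff.1 this
    refine ⟨hxy, ?_⟩
    have dx := den_pos hc hx1
    have dy := den_pos hc hy1
    have dxy := den_pos hc hxy
    have hde : den c (s • x + t • y) = s * den c x + t * den c y := by
      unfold den
      rw [inner_add_left, real_inner_smul_left, real_inner_smul_left]
      have : s = 1 - t := by linarith
      subst this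
      ring
    have key : hom c (s • x + t • y) = (s * den c x / den c (s • x + t • y)) • hom c x +
        (t * den c y / den c (s • x + t • y)) • hom c y := by
      have e1 : (s * den c x / den c (s • x + t • y)) • hom c x =
          (den c (s • x + t • y))⁻¹ • (s • ((2 * (1 - ⟪x, c⟫)) • c - (1 - ‖c‖ ^ 2) • x)) := by
        unfold hom
        rw [smul_smul, smul_smul]
        congr 1
        field_simp
      have e2 : (t * den c y / den c (s • x + t • y)) • hom c y =
          (den c (s • x + t • y))⁻¹ • (t • ((2 * (1 - ⟪y, c⟫)) • c - (1 - ‖c‖ ^ 2) • y)) := by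
        unfold hom
        rw [smul_smul, smul_smul]
        congr 1
        field_simp
      rw [e1, e2, ← smul_add]
      show (den c (s • x + t • y))⁻¹ • ((2 * (1 - ⟪s • x + t • y, c⟫)) • c - (1 - ‖c‖ ^ 2) • (s • x + t • y)) = _
      congr 1
      have hs' : s = 1 - t := by linarith
      rw [inner_add_left, real_inner_smul_left, real_inner_smul_left]
      subst hs'
      module
    rw [key]
    apply convex_convexHull ℝ D hx2 hy2
    · positivity
    · positivity
    · rw [← add_div, ← hde, div_self dxy.ne']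
  intro x hx
  have hsub : D ⊆ {x : V | ‖x‖ ≤ 1 ∧ hom c x ∈ convexHull ℝ D} := by
    intro x hx
    exact ⟨mem_closedBall_zero_iff.1 (hD hx), subset_convexHull ℝ D (hinv x hx)⟩
  exact (convexHull_min hsub hT hx).2

/-- The orbit of the origin under the homologies with centre in `C`, with the last letter recorded. -/
inductive Orb (C : Set V) : V → V → Prop
  | base : Orb C 0 0
  | step (c d x : V) (hc : c ∈ C) (hcd : c ≠ d) (hx : Orb C d x) : Orb C c (hom c x)

lemma Orb.norm_le {C : Set V} (hC : ∀ c ∈ C, ‖c‖ < 1) {c x : V} (h : Orb C c x) : ‖x‖ ≤ 1 := by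
  induction h with
  | base => simp
  | step c d x hc hcd hx ih => exact norm_hom_le (hC c hc) ih

/-- Ping-pong: an orbit point with last letter `c` lies in the cap of `c`. -/
lemma Orb.cap {C : Set V} (hC : ∀ c ∈ C, ‖c‖ < 1)
    (hsep : ∀ c ∈ C, ∀ d ∈ C, c ≠ d → ∀ x : V, ‖x‖ ≤ 1 → ‖d‖ ^ 2 ≤ ⟪x, d⟫ → ⟪x, c⟫ ≤ ‖c‖ ^ 2)
    {c x : V} (h : Orb C c x) : (c = 0 ∧ x = 0) ∨ (c ∈ C ∧ ‖c‖ ^ 2 ≤ ⟪x, c⟫) := by
  induction h with
  | base => exact Or.inl ⟨rfl, rfl⟩
  | step c d x hc hcd hx ih =>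
    right
    refine ⟨hc, cap_hom (hC c hc) (hx.norm_le hC) ?_⟩
    rcases ih with ⟨_, h0⟩ | ⟨hd, hcap⟩
    · rw [h0, inner_zero_left]; positivity
    · exact hsep c hc d hd hcd x (hx.norm_le hC) hcap

/-- The whole orbit of the origin. -/
def orbit (C : Set V) : Set V := {x | ∃ c, Orb C c x}

lemma orbit_subset {C : Set V} (hC : ∀ c ∈ C, ‖c‖ < 1) : orbit C ⊆ closedBall 0 1 := by
  rintro x ⟨c, hx⟩
  exact mem_closedBall_zero_iff.2 (hx.norm_le hC)

lemma hom_orbit {C : Set V} (hC : ∀ c ∈ C, ‖c‖ < 1) {c : V} (hc : c ∈ C) {x : V} (hx : x ∈ orbit C) :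
    hom c x ∈ orbit C := by
  obtain ⟨d, hd⟩ := hx
  by_cases hcd : c = d
  · subst hcd
    cases hd with
    | base => exact ⟨0, by simpa [hom] using Orb.base⟩
    | step c d y hc hcd hy =>
      rw [hom_hom (hC _ hc) (hy.norm_le hC)]
      exact ⟨d, hy⟩
  · exact ⟨c, Orb.step c d x hc hcd hd⟩

lemma hom_map (σ : V ≃ₗᵢ[ℝ] V) (c x : V) : hom (σ c) (σ x) = σ (hom c x) := by
  unfold hom den
  rw [LinearIsometryEquiv.inner_map_map, LinearIsometryEquiv.norm_map, map_smul, map_sub, map_smul,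
    map_smul]

lemma Orb.map {C : Set V} (σ : V ≃ₗᵢ[ℝ] V) (hσ : ∀ c ∈ C, σ c ∈ C) {c x : V} (h : Orb C c x) :
    Orb C (σ c) (σ x) := by
  induction h with
  | base => simpa using Orb.base
  | step c d x hc hcd hx ih =>
    rw [← hom_map]
    exact Orb.step _ _ _ (hσ c hc) (fun h => hcd (σ.injective h)) ih

lemma hom_closure_orbit {C : Set V} (hC : ∀ c ∈ C, ‖c‖ < 1) {c : V} (hc : c ∈ C) :
    ∀ x ∈ closure (orbit C), hom c x ∈ closure (orbit C) := by
  intro x hx
  have hcl : closure (orbit C) ⊆ closedBall 0 1 := closure_minimal (orbit_subset hC) isClosed_closedBall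
  have h1 : hom c '' closure (orbit C) ⊆ closure (hom c '' orbit C) :=
    ((continuousOn_hom (hC c hc)).mono hcl).image_closure
  have h2 : hom c '' orbit C ⊆ orbit C := by
    rintro _ ⟨y, hy, rfl⟩
    exact hom_orbit hC hc hy
  exact closure_mono h2 (h1 ⟨x, hx, rfl⟩)

end general

/-- Euclidean space of dimension `n`. -/
abbrev E (n : ℕ) := EuclideanSpace ℝ (Fin n)

/-- The viewing cone of `K` from `p`: the union of all rays from `p` through points of `K`. -/
def viewingCone {n : ℕ} (p : E n) (K : Set (E n)) : Set (E n) :=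
  {y | ∃ x ∈ K, ∃ t : ℝ, 0 ≤ t ∧ y = p + t • (x - p)}

/-- The hyperplane `{y | ⟪y, u⟫ = c}` (for `u ≠ 0`). -/
def hyperplane {n : ℕ} (u : E n) (c : ℝ) : Set (E n) := {y | ⟪y, u⟫ = c}

/-- `A` is centrally symmetric about some point `z`. -/
def CentrallySymmetric {n : ℕ} (A : Set (E n)) : Prop := ∃ z : E n, ∀ y : E n, y ∈ A ↔ (2 : ℝ) • z - y ∈ A

/-- `K` appears centrally symmetric from `p`: some hyperplane not through `p` meets the viewing cone
in a nonempty, bounded, centrally symmetric set. -/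
def AppearsCentrallySymmetric {n : ℕ} (K : Set (E n)) (p : E n) : Prop :=
  ∃ (u : E n) (c : ℝ), u ≠ 0 ∧ p ∉ hyperplane u c ∧ (viewingCone p K ∩ hyperplane u c).Nonempty ∧
    Bornology.IsBounded (viewingCone p K ∩ hyperplane u c) ∧
    CentrallySymmetric (viewingCone p K ∩ hyperplane u c)

/-- An ellipsoid: the image of the closed unit ball under an invertible affine map. -/
def IsEllipsoid {n : ℕ} (K : Set (E n)) : Prop :=
  ∃ e : E n ≃ᵃ[ℝ] E n, K = e '' closedBall (0 : E n) 1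

/-- The points in bounded components of the complement of `S`. -/
def inside {n : ℕ} (S : Set (E n)) : Set (E n) :=
  {x | x ∉ S ∧ Bornology.IsBounded (connectedComponentIn Sᶜ x)}

lemma appears {n : ℕ} {K : Set (E n)} {p c : E n} (hK : K ⊆ closedBall 0 1) (hne : K.Nonempty)
    (hc0 : c ≠ 0) (hc : ‖c‖ < 1) (hp : ⟪p, c⟫ = 1) (hinv : ∀ x ∈ K, hom c x ∈ K) :
    AppearsCentrallySymmetric K p := by
  have hball : ∀ x ∈ K, ‖x‖ ≤ 1 := fun x hx => mem_closedBall_zero_iff.1 (hK hx)
  have key : ∀ y : E n, y ∈ viewingCone p K ∩ hyperplane c 0 ↔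
      ∃ x ∈ K, y = p + (1 - ⟪x, c⟫)⁻¹ • (x - p) := by
    intro y
    constructor
    · rintro ⟨⟨x, hx, t, ht, rfl⟩, hy⟩
      refine ⟨x, hx, ?_⟩
      have htau := tau_pos hc (hball x hx)
      have h1 : ⟪p + t • (x - p), c⟫ = 0 := hy
      rw [inner_add_left, real_inner_smul_left, inner_sub_left, hp] at h1
      have h2 : t = (1 - ⟪x, c⟫)⁻¹ := by
        field_simp
        linarith
      rw [h2]
    · rintro ⟨x, hx, rfl⟩
      have htau := tau_pos hc (hball x hx)
      refine ⟨⟨x, hx, _, (inv_pos.2 htau).le, rfl⟩, ?_⟩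
      show ⟪p + (1 - ⟪x, c⟫)⁻¹ • (x - p), c⟫ = 0
      rw [inner_add_left, real_inner_smul_left, inner_sub_left, hp]
      field_simp
      ring
  refine ⟨c, 0, hc0, ?_, ?_, ?_, ?_⟩
  · intro h
    have : ⟪p, c⟫ = 0 := h
    linarith
  · obtain ⟨x, hx⟩ := hne
    exact ⟨_, (key _).2 ⟨x, hx, rfl⟩⟩
  · rw [isBounded_iff_forall_norm_le]
    refine ⟨‖p‖ + (1 - ‖c‖)⁻¹ * (1 + ‖p‖), ?_⟩
    intro y hy
    obtain ⟨x, hx, rfl⟩ := (key y).1 hy
    have htau := tau_pos hc (hball x hx)
    have h1 := inner_le_of_norm_le (c := c) (hball x hx)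
    refine (norm_add_le _ _).trans ?_
    rw [norm_smul, Real.norm_eq_abs, abs_of_pos (inv_pos.2 htau)]
    have h2 : ‖x - p‖ ≤ 1 + ‖p‖ := (norm_sub_le _ _).trans (by linarith [hball x hx])
    have h3 : (1 - ⟪x, c⟫)⁻¹ ≤ (1 - ‖c‖)⁻¹ := by
      apply inv_anti₀ (by linarith) (by linarith)
    have h4 : 0 ≤ (1 - ⟪x, c⟫)⁻¹ := (inv_pos.2 htau).le
    have h5 : (1 - ⟪x, c⟫)⁻¹ * ‖x - p‖ ≤ (1 - ‖c‖)⁻¹ * (1 + ‖p‖) := by
      apply mul_le_mul h3 h2 (norm_nonneg _) (h4.trans h3)
    linarith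
  · have hsym : ∀ x ∈ K, (2 : ℝ) • (p + (1 - ‖c‖ ^ 2)⁻¹ • (c - p)) - (p + (1 - ⟪x, c⟫)⁻¹ • (x - p)) =
        p + (1 - ⟪hom c x, c⟫)⁻¹ • (hom c x - p) := by
      intro x hx
      have htau := (tau_pos hc (hball x hx)).ne'
      have hd := (den_pos hc (hball x hx)).ne'
      have hk := (one_sub_sq_pos hc).ne'
      rw [tau_hom hd]
      unfold hom
      rw [smul_sub ((1 - ‖c‖ ^ 2) * (1 - ⟪x, c⟫) / den c x)⁻¹, smul_smul]
      have e1 : ((1 - ‖c‖ ^ 2) * (1 - ⟪x, c⟫) / den c x)⁻¹ * (den c x)⁻¹ =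
          ((1 - ‖c‖ ^ 2) * (1 - ⟪x, c⟫))⁻¹ := by
        field_simp
      rw [e1]
      have e2 : ((1 - ‖c‖ ^ 2) * (1 - ⟪x, c⟫) / den c x)⁻¹ =
          (2 * (1 - ⟪x, c⟫) - (1 - ‖c‖ ^ 2)) * ((1 - ‖c‖ ^ 2) * (1 - ⟪x, c⟫))⁻¹ := by
        have : den c x = 2 * (1 - ⟪x, c⟫) - (1 - ‖c‖ ^ 2) := by unfold den; ring
        rw [this, inv_div, div_eq_mul_inv]
      rw [e2]
      have e3 : (1 - ‖c‖ ^ 2)⁻¹ = (1 - ⟪x, c⟫) * ((1 - ‖c‖ ^ 2) * (1 - ⟪x, c⟫))⁻¹ := by
        field_simp
      have e4 : (1 - ⟪x, c⟫)⁻¹ = (1 - ‖c‖ ^ 2) * ((1 - ‖c‖ ^ 2) * (1 - ⟪x, c⟫))⁻¹ := by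
        field_simp
      rw [e3, e4]
      have e5 : (1 - ‖c‖ ^ 2) * (1 - ⟪x, c⟫) * ((1 - ‖c‖ ^ 2) * (1 - ⟪x, c⟫))⁻¹ = 1 :=
        mul_inv_cancel₀ (mul_ne_zero hk htau)
      generalize ((1 - ‖c‖ ^ 2) * (1 - ⟪x, c⟫))⁻¹ = r at *
      module
    refine ⟨p + (1 - ‖c‖ ^ 2)⁻¹ • (c - p), ?_⟩
    have one : ∀ y, y ∈ viewingCone p K ∩ hyperplane c 0 →
        (2 : ℝ) • (p + (1 - ‖c‖ ^ 2)⁻¹ • (c - p)) - y ∈ viewingCone p K ∩ hyperplane c 0 := by
      intro y hy
      obtain ⟨x, hx, rfl⟩ := (key y).1 hy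
      rw [key]
      exact ⟨hom c x, hinv x hx, hsym x hx⟩
    intro y
    constructor
    · exact one y
    · intro hy
      have := one _ hy
      rwa [sub_sub_cancel] at this

/-- The centres `± (4/5) e_i`. -/
def centers (n : ℕ) : Set (E n) :=
  {c | ∃ i : Fin n, c = EuclideanSpace.single i (4 / 5 : ℝ) ∨ c = EuclideanSpace.single i (-(4 / 5) : ℝ)}

lemma centers_norm {n : ℕ} {c : E n} (hc : c ∈ centers n) : ‖c‖ = 4 / 5 := by
  obtain ⟨i, rfl | rfl⟩ := hc
  · rw [PiLp.norm_single, Real.norm_eq_abs, abs_of_pos (by norm_num)]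
  · rw [PiLp.norm_single, Real.norm_eq_abs, abs_neg, abs_of_pos (by norm_num)]

lemma centers_norm_lt {n : ℕ} : ∀ c ∈ centers n, ‖c‖ < 1 := by
  intro c hc
  rw [centers_norm hc]; norm_num

lemma inner_single {n : ℕ} (x : E n) (i : Fin n) (a : ℝ) : ⟪x, EuclideanSpace.single i a⟫ = a * x i := by
  rw [EuclideanSpace.inner_single_right]
  simp

lemma sq_two {n : ℕ} (x : E n) {i j : Fin n} (hij : i ≠ j) : x i ^ 2 + x j ^ 2 ≤ ‖x‖ ^ 2 := by
  rw [EuclideanSpace.real_norm_sq_eq]
  have h := Finset.sum_le_sum_of_subset_of_nonneg (s := ({i, j} : Finset (Fin n))) (t := Finset.univ)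
    (f := fun k => x k ^ 2) (Finset.subset_univ _) (fun k _ _ => sq_nonneg _)
  rwa [Finset.sum_pair hij] at h

lemma sq_three {n : ℕ} (x : E n) {i j k : Fin n} (hij : i ≠ j) (hik : i ≠ k) (hjk : j ≠ k) :
    x i ^ 2 + x j ^ 2 + x k ^ 2 ≤ ‖x‖ ^ 2 := by
  rw [EuclideanSpace.real_norm_sq_eq]
  have h := Finset.sum_le_sum_of_subset_of_nonneg (s := ({i, j, k} : Finset (Fin n))) (t := Finset.univ)
    (f := fun k => x k ^ 2) (Finset.subset_univ _) (fun k _ _ => sq_nonneg _)
  rw [Finset.sum_insert (by simp [hij, hik]), Finset.sum_pair hjk] at h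
  linarith

lemma centers_sep {n : ℕ} : ∀ c ∈ centers n, ∀ d ∈ centers n, c ≠ d → ∀ x : E n, ‖x‖ ≤ 1 →
    ‖d‖ ^ 2 ≤ ⟪x, d⟫ → ⟪x, c⟫ ≤ ‖c‖ ^ 2 := by
  intro c hc d hd hcd x hx h
  rw [centers_norm hc]
  rw [centers_norm hd] at h
  have hx2 : ‖x‖ ^ 2 ≤ 1 := by nlinarith [norm_nonneg x]
  obtain ⟨i, hi⟩ := hc
  obtain ⟨j, hj⟩ := hd
  by_cases hij : i = j
  · subst hij
    rcases hi with rfl | rfl <;> rcases hj with rfl | rfl
    · exact absurd rfl hcd
    · rw [inner_single] at *
      linarith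
    · rw [inner_single] at *
      linarith
    · exact absurd rfl hcd
  · have h2 := sq_two x hij
    rcases hi with rfl | rfl <;> rcases hj with rfl | rfl <;> rw [inner_single] at * <;> by_contra hcon <;>
      push Not at hcon <;> nlinarith

/-- The body `K`: the closed convex hull of the orbit. -/
def body (n : ℕ) : Set (E n) := closure (convexHull ℝ (orbit (centers n)))

lemma closure_subset (n : ℕ) : closure (orbit (centers n)) ⊆ closedBall (0 : E n) 1 :=
  closure_minimal (orbit_subset centers_norm_lt) isClosed_closedBall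

lemma isCompact_closure_orbit (n : ℕ) : IsCompact (closure (orbit (centers n))) :=
  (isCompact_closedBall (0 : E n) 1).of_isClosed_subset isClosed_closure (closure_subset n)

lemma body_subset (n : ℕ) : body n ⊆ closedBall (0 : E n) 1 :=
  closure_minimal (convexHull_min (orbit_subset centers_norm_lt) (convex_closedBall _ _)) isClosed_closedBall

lemma zero_mem_orbit {V : Type*} [NormedAddCommGroup V] [InnerProductSpace ℝ V] (C : Set V) :
    (0 : V) ∈ orbit C := ⟨0, Orb.base⟩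

lemma isCompact_body (n : ℕ) : IsCompact (body n) :=
  (isCompact_closedBall (0 : E n) 1).of_isClosed_subset isClosed_closure (body_subset n)

lemma convex_body (n : ℕ) : Convex ℝ (body n) := (convex_convexHull ℝ _).closure

lemma closure_orbit_subset_body (n : ℕ) : closure (orbit (centers n)) ⊆ body n :=
  closure_mono (subset_convexHull ℝ _)

lemma hom_body {n : ℕ} {c : E n} (hc : c ∈ centers n) : ∀ x ∈ body n, hom c x ∈ body n := by
  intro x hx
  have h1 : hom c '' body n ⊆ closure (hom c '' convexHull ℝ (orbit (centers n))) :=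
    ((continuousOn_hom (centers_norm_lt c hc)).mono (body_subset n)).image_closure
  have h2 : hom c '' convexHull ℝ (orbit (centers n)) ⊆ convexHull ℝ (orbit (centers n)) := by
    rintro _ ⟨y, hy, rfl⟩
    exact hom_convexHull (centers_norm_lt c hc) (orbit_subset centers_norm_lt)
      (fun z hz => hom_orbit centers_norm_lt hc hz) y hy
  exact closure_mono h2 (h1 ⟨x, hx, rfl⟩)

lemma hom_zero {n : ℕ} {c : E n} (hc : c ∈ centers n) : hom c 0 = (50 / 41 : ℝ) • c := by
  unfold hom den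
  rw [centers_norm hc]
  simp only [inner_zero_left, mul_zero, sub_zero, mul_one, smul_zero, smul_smul]
  norm_num

lemma hom_zero_mem {n : ℕ} {c : E n} (hc : c ∈ centers n) : (50 / 41 : ℝ) • c ∈ orbit (centers n) := by
  rw [← hom_zero hc]
  exact hom_orbit centers_norm_lt hc (zero_mem_orbit _)

lemma single_mem_orbit {n : ℕ} (i : Fin n) : EuclideanSpace.single i (40 / 41 : ℝ) ∈ orbit (centers n) := by
  have h := hom_zero_mem (n := n) (c := EuclideanSpace.single i (4 / 5 : ℝ)) ⟨i, Or.inl rfl⟩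
  have e : (50 / 41 : ℝ) • (EuclideanSpace.single i (4 / 5 : ℝ) : E n) = EuclideanSpace.single i (40 / 41 : ℝ) := by
    ext j
    simp only [PiLp.smul_apply, PiLp.single_apply, smul_eq_mul]
    split_ifs
    · norm_num
    · norm_num
  rwa [e] at h

lemma interior_body (n : ℕ) : (interior (body n)).Nonempty := by
  have h00 : (interior (convexHull ℝ (orbit (centers n)))).Nonempty → (interior (body n)).Nonempty :=
    fun h => h.mono (interior_mono subset_closure)
  apply h00
  rw [interior_convexHull_nonempty_iff_affineSpan_eq_top]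
  have h0 : (0 : E n) ∈ orbit (centers n) := zero_mem_orbit _
  rw [AffineSubspace.affineSpan_eq_top_iff_vectorSpan_eq_top_of_nonempty ℝ (E n) (E n) ⟨0, h0⟩,
    vectorSpan_eq_span_vsub_set_right ℝ h0, eq_top_iff]
  rw [← (EuclideanSpace.basisFun (Fin n) ℝ).toBasis.span_eq]
  rw [Submodule.span_le]
  rintro _ ⟨i, rfl⟩
  have h1 : (EuclideanSpace.single i (40 / 41 : ℝ) : E n) ∈
      Submodule.span ℝ ((fun x : E n => x -ᵥ (0 : E n)) '' orbit (centers n)) := by
    apply Submodule.subset_span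
    exact ⟨_, single_mem_orbit i, by simp⟩
  have h2 := Submodule.smul_mem _ (41 / 40 : ℝ) h1
  have e : (41 / 40 : ℝ) • (EuclideanSpace.single i (40 / 41 : ℝ) : E n) =
      (EuclideanSpace.basisFun (Fin n) ℝ).toBasis i := by
    rw [OrthonormalBasis.coe_toBasis, EuclideanSpace.basisFun_apply]
    ext j
    simp only [PiLp.smul_apply, PiLp.single_apply, smul_eq_mul]
    split_ifs
    · norm_num
    · norm_num
  rw [e] at h2
  exact h2

/-- The cube `|x_i| ≤ 5/4`. -/
def cube (n : ℕ) : Set (E n) := {x | ∀ i, |x i| ≤ 5 / 4}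

lemma convex_cube (n : ℕ) : Convex ℝ (cube n) := by
  intro x hx y hy s t hs ht hst i
  have h1 := abs_le.1 (hx i)
  have h2 := abs_le.1 (hy i)
  rw [abs_le]
  simp only [PiLp.add_apply, PiLp.smul_apply, smul_eq_mul]
  have hs' : s = 1 - t := by linarith
  subst hs'
  constructor <;> nlinarith

lemma isClosed_cube (n : ℕ) : IsClosed (cube n) := by
  have : cube n = ⋂ i, {x : E n | |x i| ≤ 5 / 4} := by
    ext x; simp [cube]
  rw [this]
  apply isClosed_iInter
  intro i
  apply isClosed_le _ continuous_const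
  fun_prop

lemma isOpen_cube (n : ℕ) : IsOpen {x : E n | ∀ i, |x i| < 5 / 4} := by
  have : {x : E n | ∀ i, |x i| < 5 / 4} = ⋂ i, {x : E n | |x i| < 5 / 4} := by
    ext x; simp
  rw [this]
  apply isOpen_iInter_of_finite
  intro i
  apply isOpen_lt _ continuous_const
  fun_prop

lemma isBounded_cube (n : ℕ) : Bornology.IsBounded (cube n) := by
  rw [isBounded_iff_forall_norm_le]
  refine ⟨Real.sqrt (∑ i : Fin n, (5 / 4) ^ 2), ?_⟩
  intro x hx
  rw [EuclideanSpace.norm_eq]
  apply Real.sqrt_le_sqrt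
  apply Finset.sum_le_sum
  intro i _
  rw [Real.norm_eq_abs]
  have := hx i
  gcongr

lemma ball_subset_interior (n : ℕ) : closedBall (0 : E n) 1 ⊆ interior (cube n) := by
  have h1 : {x : E n | ∀ i, |x i| < 5 / 4} ⊆ interior (cube n) :=
    interior_maximal (fun x hx i => (hx i).le) (isOpen_cube n)
  refine Subset.trans ?_ h1
  intro x hx i
  rw [mem_closedBall_zero_iff] at hx
  have := EuclideanSpace.norm_eq x
  have h2 : |x i| ≤ ‖x‖ := by
    have := PiLp.norm_apply_le x i
    rwa [Real.norm_eq_abs] at this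
  linarith

lemma frontier_cube {n : ℕ} {p : E n} (hp : p ∈ frontier (cube n)) : ∃ c ∈ centers n, ⟪p, c⟫ = 1 := by
  have h1 : {x : E n | ∀ i, |x i| < 5 / 4} ⊆ interior (cube n) :=
    interior_maximal (fun x hx i => (hx i).le) (isOpen_cube n)
  have hp1 : p ∈ cube n := (isClosed_cube n).frontier_subset hp
  have hp2 : p ∉ {x : E n | ∀ i, |x i| < 5 / 4} := fun h => hp.2 (h1 h)
  simp only [mem_ofPred_eq, not_forall, not_lt] at hp2
  obtain ⟨i, hi⟩ := hp2
  have hi2 : |p i| = 5 / 4 := le_antisymm (hp1 i) hi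
  rcases le_total 0 (p i) with h | h
  · rw [abs_of_nonneg h] at hi2
    refine ⟨_, ⟨i, Or.inl rfl⟩, ?_⟩
    rw [inner_single, hi2]; norm_num
  · rw [abs_of_nonpos h] at hi2
    refine ⟨_, ⟨i, Or.inr rfl⟩, ?_⟩
    rw [inner_single]; linarith

lemma inside_cube {n : ℕ} : interior (cube n) ⊆ inside (frontier (cube n)) := by
  intro x hx
  have hx1 : x ∉ frontier (cube n) := fun h => h.2 hx
  refine ⟨hx1, ?_⟩
  have hsub : connectedComponentIn (frontier (cube n))ᶜ x ⊆ interior (cube n) := by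
    apply IsPreconnected.subset_left_of_subset_union (v := (closure (cube n))ᶜ) isOpen_interior
      isClosed_closure.isOpen_compl
    · exact disjoint_compl_right_iff_subset.2 (interior_subset.trans subset_closure)
    · refine (connectedComponentIn_subset _ _).trans ?_
      intro y hy
      by_cases h : y ∈ interior (cube n)
      · exact Or.inl h
      · exact Or.inr (fun h2 => hy ⟨h2, h⟩)
    · exact ⟨x, mem_connectedComponentIn hx1, hx⟩
    · exact isPreconnected_connectedComponentIn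
  exact (isBounded_cube n).subset (hsub.trans interior_subset)

lemma homeo_frontier_cube (n : ℕ) : Nonempty (frontier (cube n) ≃ₜ sphere (0 : E n) 1) := by
  have hne : (interior (cube n)).Nonempty := ⟨0, ball_subset_interior n (by simp)⟩
  obtain ⟨h, -, -, h3⟩ := exists_homeomorph_image_interior_closure_frontier_eq_unitBall (convex_cube n) hne
    (isBounded_cube n)
  exact ⟨(h.image _).trans (Homeomorph.setCongr h3)⟩

/-- The isometry exchanging the coordinates `i` and `j`. -/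
noncomputable def swapIso {n : ℕ} (i j : Fin n) : E n ≃ₗᵢ[ℝ] E n :=
  LinearIsometryEquiv.piLpCongrLeft 2 ℝ ℝ (Equiv.swap i j)

lemma swapIso_single {n : ℕ} (i j k : Fin n) (a : ℝ) :
    swapIso i j (EuclideanSpace.single k a) = EuclideanSpace.single (Equiv.swap i j k) a := by
  unfold swapIso
  exact EuclideanSpace.piLpCongrLeft_single _ _ _

lemma swapIso_apply {n : ℕ} (i j k : Fin n) (x : E n) : swapIso i j x k = x (Equiv.swap i j k) := by
  unfold swapIso
  rw [LinearIsometryEquiv.piLpCongrLeft_apply]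
  simp [Equiv.piCongrLeft']

lemma swapIso_centers {n : ℕ} (i j : Fin n) : ∀ c ∈ centers n, swapIso i j c ∈ centers n := by
  rintro _ ⟨k, rfl | rfl⟩
  · exact ⟨_, Or.inl (swapIso_single i j k _)⟩
  · exact ⟨_, Or.inr (swapIso_single i j k _)⟩

lemma swapIso_closure {n : ℕ} (i j : Fin n) {x : E n} (hx : x ∈ closure (orbit (centers n))) :
    swapIso i j x ∈ closure (orbit (centers n)) := by
  have h1 : swapIso i j '' closure (orbit (centers n)) ⊆ closure (swapIso i j '' orbit (centers n)) :=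
    image_closure_subset_closure_image (swapIso i j).continuous
  have h2 : swapIso i j '' orbit (centers n) ⊆ orbit (centers n) := by
    rintro _ ⟨y, ⟨c, hc⟩, rfl⟩
    exact ⟨_, hc.map (swapIso i j) (swapIso_centers i j)⟩
  exact closure_mono h2 (h1 ⟨x, hx, rfl⟩)

/-- Orbit points with a large value of `x_i + x_j` lie in one of the two caps. -/
lemma orbit_cap {n : ℕ} {i j : Fin n} (hij : i ≠ j) {x : E n} (hx : x ∈ orbit (centers n))
    (h : 9 / 10 < x i + x j) : 4 / 5 ≤ x i ∨ 4 / 5 ≤ x j := by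
  obtain ⟨c, hc⟩ := hx
  have hn : ‖x‖ ≤ 1 := hc.norm_le centers_norm_lt
  have hn2 : ‖x‖ ^ 2 ≤ 1 := by nlinarith [norm_nonneg x]
  have h2 := sq_two x hij
  rcases hc.cap centers_norm_lt centers_sep with ⟨_, h0⟩ | ⟨hcC, hcap⟩
  · rw [h0] at h
    norm_num at h
  · rw [centers_norm hcC] at hcap
    obtain ⟨k, hk⟩ := hcC
    by_cases hki : k = i
    · subst hki
      rcases hk with rfl | rfl
      · rw [inner_single] at hcap
        left; linarith
      · rw [inner_single] at hcap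
        exfalso
        have h3 : x j ≤ 1 := by nlinarith [sq_nonneg (x k)]
        linarith
    · by_cases hkj : k = j
      · subst hkj
        rcases hk with rfl | rfl
        · rw [inner_single] at hcap
          right; linarith
        · rw [inner_single] at hcap
          exfalso
          have h3 : x i ≤ 1 := by nlinarith [sq_nonneg (x k)]
          linarith
      · exfalso
        have h3 := sq_three x hki hkj hij
        have h4 : 16 / 25 ≤ x k ^ 2 := by
          rcases hk with rfl | rfl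
          · rw [inner_single] at hcap
            nlinarith
          · rw [inner_single] at hcap
            nlinarith
        nlinarith [sq_nonneg (x i - x j)]

lemma closure_orbit_cap {n : ℕ} {i j : Fin n} (hij : i ≠ j) {x : E n} (hx : x ∈ closure (orbit (centers n)))
    (h : 9 / 10 < x i + x j) : 4 / 5 ≤ x i ∨ 4 / 5 ≤ x j := by
  have hU : IsOpen {x : E n | 9 / 10 < x i + x j} := by
    apply isOpen_lt continuous_const
    fun_prop
  have hx2 : x ∈ closure ({x : E n | 9 / 10 < x i + x j} ∩ orbit (centers n)) :=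
    hU.inter_closure ⟨h, hx⟩
  have hF1 : IsClosed {x : E n | 4 / 5 ≤ x i} := isClosed_le continuous_const (by fun_prop)
  have hF2 : IsClosed {x : E n | 4 / 5 ≤ x j} := isClosed_le continuous_const (by fun_prop)
  have hF : IsClosed {x : E n | 4 / 5 ≤ x i ∨ 4 / 5 ≤ x j} := hF1.union hF2
  exact closure_minimal (fun y hy => orbit_cap hij hy.2 hy.1) hF hx2

lemma not_ellipsoid {n : ℕ} (hn : 3 ≤ n) : ¬ IsEllipsoid (body n) := by
  rintro ⟨e, he⟩
  have hsc : StrictConvex ℝ (body n) := by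
    rw [he]
    have h1 : StrictConvex ℝ (closedBall (0 : E n) 1) := strictConvex_closedBall ℝ 0 1
    exact h1.affine_image (f := e.toAffineMap) (e.toContinuousAffineEquiv.toHomeomorph.isOpenMap)
  obtain ⟨i, j, hij⟩ : ∃ i j : Fin n, i ≠ j := ⟨⟨0, by omega⟩, ⟨1, by omega⟩, by simp [Fin.ext_iff]⟩
  have hfc : Continuous (fun x : E n => x i + x j) := by fun_prop
  obtain ⟨x, hx, hmax⟩ := (isCompact_closure_orbit n).exists_isMaxOn ⟨0, subset_closure (zero_mem_orbit _)⟩
    hfc.continuousOn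
  have hmax' : ∀ y ∈ closure (orbit (centers n)), y i + y j ≤ x i + x j := fun y hy => hmax hy
  have hle : ∀ y ∈ body n, y i + y j ≤ x i + x j := by
    have hcv : Convex ℝ {y : E n | y i + y j ≤ x i + x j} := by
      intro y hy z hz s t hs ht hst
      have hy' : y i + y j ≤ x i + x j := hy
      have hz' : z i + z j ≤ x i + x j := hz
      show (s • y + t • z) i + (s • y + t • z) j ≤ x i + x j
      simp only [PiLp.add_apply, PiLp.smul_apply, smul_eq_mul]
      have hs' : s = 1 - t := by linarith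
      subst hs'
      nlinarith
    have hcl : IsClosed {y : E n | y i + y j ≤ x i + x j} := isClosed_le hfc continuous_const
    exact closure_minimal (convexHull_min (fun y hy => hmax' y (subset_closure hy)) hcv) hcl
  have hbig : 9 / 10 < x i + x j := by
    have h1 := hmax' _ (subset_closure (single_mem_orbit i))
    have h2 : (EuclideanSpace.single i (40 / 41 : ℝ) : E n) i = 40 / 41 := by simp
    have h3 : (EuclideanSpace.single i (40 / 41 : ℝ) : E n) j = 0 := by simp [hij]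
    rw [h2, h3] at h1
    linarith
  have hcap := closure_orbit_cap hij hx hbig
  have hy := swapIso_closure i j hx
  have hyi : swapIso i j x i = x j := by rw [swapIso_apply]; simp
  have hyj : swapIso i j x j = x i := by rw [swapIso_apply]; simp
  have hne : x ≠ swapIso i j x := by
    intro h
    have h1 : x i = x j := by
      conv_lhs => rw [h]
      exact hyi
    have hn1 : ‖x‖ ≤ 1 := mem_closedBall_zero_iff.1 (closure_subset n hx)
    have hn2 : ‖x‖ ^ 2 ≤ 1 := by nlinarith [norm_nonneg x]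
    have h2 := sq_two x hij
    rcases hcap with h3 | h3 <;> nlinarith
  have hmid := hsc (closure_orbit_subset_body n hx) (closure_orbit_subset_body n hy) hne
    (a := 1 / 2) (b := 1 / 2) (by norm_num) (by norm_num) (by norm_num)
  rw [mem_interior_iff_mem_nhds, Metric.mem_nhds_iff] at hmid
  obtain ⟨r, hr, hball⟩ := hmid
  have hin : (1 / 2 : ℝ) • x + (1 / 2 : ℝ) • swapIso i j x + EuclideanSpace.single i (r / 2) ∈
      ball ((1 / 2 : ℝ) • x + (1 / 2 : ℝ) • swapIso i j x) r := by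
    rw [mem_ball, dist_eq_norm, add_sub_cancel_left, PiLp.norm_single, Real.norm_eq_abs,
      abs_of_pos (by linarith)]
    linarith
  have h5 := hle _ (hball hin)
  simp only [PiLp.add_apply, PiLp.smul_apply, smul_eq_mul, hyi, hyj] at h5
  have h2 : (EuclideanSpace.single i (r / 2 : ℝ) : E n) i = r / 2 := by simp
  have h3 : (EuclideanSpace.single i (r / 2 : ℝ) : E n) j = 0 := by simp [hij]
  rw [h2, h3] at h5
  linarith

/-- Q1 is false in every dimension `n ≥ 3`: there are a closed surface `S` homeomorphic to the sphere (it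
can be taken to be the boundary of a convex body `Q`) and a convex body `K` inside `S` that appears
centrally symmetric from every point of `S` but is not an ellipsoid. -/
theorem result : ∀ n : ℕ, 3 ≤ n → ∃ S K : Set (E n),
    Nonempty (S ≃ₜ sphere (0 : E n) 1) ∧
    (∃ Q : Set (E n), IsCompact Q ∧ Convex ℝ Q ∧ S = frontier Q ∧ K ⊆ interior Q) ∧
    IsCompact K ∧ Convex ℝ K ∧ (interior K).Nonempty ∧
    K ⊆ inside S ∧
    (∀ p ∈ S, AppearsCentrallySymmetric K p) ∧
    ¬ IsEllipsoid K := by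
  intro n hn
  refine ⟨frontier (cube n), body n, homeo_frontier_cube n,
    ⟨cube n, ?_, convex_cube n, rfl, (body_subset n).trans (ball_subset_interior n)⟩,
    isCompact_body n, convex_body n, interior_body n,
    ((body_subset n).trans (ball_subset_interior n)).trans inside_cube, ?_, not_ellipsoid hn⟩
  · exact Metric.isCompact_of_isClosed_isBounded (isClosed_cube n) (isBounded_cube n)
  · intro p hp
    obtain ⟨c, hc, hpc⟩ := frontier_cube hp
    refine appears (body_subset n) ⟨0, closure_orbit_subset_body n (subset_closure (zero_mem_orbit _))⟩ ?_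
      (centers_norm_lt c hc) hpc (hom_body hc)
    rintro rfl
    rw [inner_zero_right] at hpc
    exact zero_ne_one hpc

end Pool.Agent.Results.MP_3d3a24_gt.LooksSymmetric
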